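import Pool.Agent.H306R2.RG.StubsA
import Pool.Agent.H896R2.RZ_F2

/-!
# Project RG, tasks FE1, FE2: Mellin transforms of the transform of a test function,
both signs of the frequency (StubsA is imported for the definition of `Fme` only)
-/

set_option autoImplicit false

namespace Pool.Agent.H413R3.RG

open Finset Filter Topology MeasureTheory Pool.Agent.H306R2.RZ Pool.Agent.H306R2.RG
open Pool.Agent.H306R2.RG.StubsA

/-- the transform at frequency `ε ξ` is smooth and rapidly decreasing -/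
theorem F1e (ε : ℤ) (hε : ε = 1 ∨ ε = -1) (F : ℝ → ℝ) (hF : TF F) :
    ContDiff ℝ ((⊤ : ℕ∞) : WithTop ℕ∞) (fun ξ : ℝ => Ft F ((ε : ℝ) * ξ)) ∧
    ∀ j A : ℕ, ∃ C : ℝ, ∀ ξ : ℝ,
      |iteratedDeriv j (fun ξ : ℝ => Ft F ((ε : ℝ) * ξ)) ξ| ≤ C / (1 + |ξ|) ^ A := by
  obtain ⟨hcd, hb⟩ := Pool.Agent.H881R2.RZ.F1 F hF
  have habs : |(ε : ℝ)| = 1 := by
    rcases hε with h | h <;> rw [h] <;> simp
  refine ⟨hcd.comp (contDiff_const.mul contDiff_id), fun j A => ?_⟩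
  obtain ⟨C, hC⟩ := hb j A
  refine ⟨C, fun ξ => ?_⟩
  have h1 : iteratedDeriv j (fun ξ : ℝ => Ft F ((ε : ℝ) * ξ)) ξ =
      (ε : ℝ) ^ j * iteratedDeriv j (Ft F) ((ε : ℝ) * ξ) := by
    have h2 : ContDiff ℝ (j : WithTop ℕ∞) (Ft F) := hcd.of_le (by exact_mod_cast le_top)
    rw [iteratedDeriv_comp_const_mul h2 (ε : ℝ)]
  rw [h1, abs_mul, abs_pow, habs, one_pow, one_mul]
  have h3 := hC ((ε : ℝ) * ξ)
  rw [abs_mul, habs, one_mul] at h3
  exact h3

theorem FE1 (ε : ℤ) (hε : ε = 1 ∨ ε = -1) (F : ℝ → ℝ) (hF : TF F) : HP (Fme ε F) (Ft F 0) := by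
  obtain ⟨hsm, hdec⟩ := F1e ε hε F hF
  obtain ⟨hRD, hd⟩ := Pool.Agent.H896R2.RZF2.fam _ hsm hdec
  set G : ℕ → ℝ → ℂ := fun j ξ =>
    ((iteratedDeriv j (fun ξ : ℝ => Ft F ((ε : ℝ) * ξ)) ξ : ℝ) : ℂ) with hG
  have h0 : (fun ξ : ℝ => ((Ft F ((ε : ℝ) * ξ) : ℝ) : ℂ)) = G 0 := by
    funext ξ
    simp only [hG, iteratedDeriv_zero]
  have hFm : ∀ s, Fme ε F s = mellin (G 0) s := fun s => by unfold Fme; rw [h0]
  have hG0 : G 0 0 = ((Ft F 0 : ℝ) : ℂ) := by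
    simp only [hG, iteratedDeriv_zero, mul_zero]
  refine ⟨?_, ?_, ?_⟩
  · intro s hs
    have h1 : Fme ε F = mellin (G 0) := funext hFm
    rw [h1]
    exact ((hRD 0).diff hs).differentiableWithinAt
  · intro A
    obtain ⟨C, hC⟩ := Pool.Agent.H896R2.RZF2.main2 G hRD hd A
    exact ⟨C, fun s hs0 hs1 => by rw [hFm]; exact hC s hs0 hs1⟩
  · intro σ hσ
    have h1 := Pool.Agent.H896R2.RZF2.main3 (hRD 0) (hRD 1) (hd 0) σ hσ
    have h2 : (fun L : ℝ => Fme ε F (σ / (L : ℂ)) / (L : ℂ)) =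
        fun L : ℝ => mellin (G 0) (σ / (L : ℂ)) / (L : ℂ) := by
      funext L
      rw [hFm]
    rw [h2, ← hG0]
    exact h1

theorem FE2 (ε : ℤ) (hε : ε = 1 ∨ ε = -1) (F : ℝ → ℝ) (hF : TF F) (ξ : ℝ) (hξ : 0 < ξ)
    (σ0 : ℝ) (h0 : 0 < σ0) (h1 : σ0 ≤ 1) :
    (Ft F ((ε : ℝ) * ξ) : ℂ) = (1 / (2 * Real.pi) : ℂ) *
      ∫ t : ℝ, Fme ε F ((σ0 : ℂ) + t * Complex.I) * (ξ : ℂ) ^ (-((σ0 : ℂ) + t * Complex.I)) := by
  obtain ⟨hcd, hb⟩ := F1e ε hε F hF
  obtain ⟨hdiff, hdec, -⟩ := FE1 ε hε F hF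
  have hcont : Continuous (fun ξ : ℝ => ((Ft F ((ε : ℝ) * ξ) : ℝ) : ℂ)) :=
    Complex.continuous_ofReal.comp hcd.continuous
  obtain ⟨C, hC⟩ := hb 0 2
  have hC0 : ∀ x : ℝ, |Ft F ((ε : ℝ) * x)| ≤ |C| / (1 + |x|) ^ 2 := by
    intro x
    have h := hC x
    rw [iteratedDeriv_zero] at h
    exact h.trans (div_le_div_of_nonneg_right (le_abs_self C) (by positivity))
  have hconv : MellinConvergent (fun ξ : ℝ => ((Ft F ((ε : ℝ) * ξ) : ℝ) : ℂ)) (σ0 : ℂ) := by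
    refine mellinConvergent_of_isBigO_rpow (a := 2) (b := 0) ?_ ?_ ?_ ?_ ?_
    · exact hcont.locallyIntegrable.locallyIntegrableOn _
    · refine Asymptotics.IsBigO.of_bound |C| ?_
      filter_upwards [eventually_gt_atTop 0] with x hx
      rw [Complex.norm_real, Real.norm_eq_abs, Real.norm_eq_abs,
        abs_of_pos (Real.rpow_pos_of_pos hx _), Real.rpow_neg hx.le]
      refine (hC0 x).trans ?_
      rw [div_eq_mul_inv]
      refine mul_le_mul_of_nonneg_left ?_ (abs_nonneg _)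
      have h2 : x ^ (2 : ℝ) = x ^ 2 := by exact_mod_cast Real.rpow_natCast x 2
      rw [h2, abs_of_pos hx]
      exact inv_anti₀ (by positivity) (pow_le_pow_left₀ hx.le (by linarith) 2)
    · rw [Complex.ofReal_re]
      linarith
    · refine Asymptotics.IsBigO.of_bound |C| ?_
      filter_upwards [self_mem_nhdsWithin] with x hx
      rw [Complex.norm_real, Real.norm_eq_abs, Real.norm_eq_abs, neg_zero, Real.rpow_zero,
        abs_one, mul_one]
      refine (hC0 x).trans ?_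
      refine div_le_self (abs_nonneg _) ?_
      have h2 : (1 : ℝ) ≤ 1 + |x| := by linarith [abs_nonneg x]
      exact one_le_pow₀ h2
    · rw [Complex.ofReal_re]
      exact h0
  have hre : ∀ t : ℝ, ((σ0 : ℂ) + t * Complex.I).re = σ0 := by
    intro t
    simp
  have him : ∀ t : ℝ, ((σ0 : ℂ) + t * Complex.I).im = t := by
    intro t
    simp
  have hvert : Complex.VerticalIntegrable
      (mellin (fun ξ : ℝ => ((Ft F ((ε : ℝ) * ξ) : ℝ) : ℂ))) σ0 := by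
    obtain ⟨C', hC'⟩ := hdec 2
    have hopen : IsOpen {s : ℂ | 0 < s.re} := isOpen_lt continuous_const Complex.continuous_re
    have hc : Continuous (fun t : ℝ => Fme ε F ((σ0 : ℂ) + t * Complex.I)) := by
      rw [continuous_iff_continuousAt]
      intro t
      have h2 : ContinuousAt (Fme ε F) ((σ0 : ℂ) + t * Complex.I) :=
        (hdiff.continuousOn).continuousAt (hopen.mem_nhds (by
          show 0 < ((σ0 : ℂ) + t * Complex.I).re
          rw [hre]; exact h0))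
      have h3 : ContinuousAt (fun t : ℝ => (σ0 : ℂ) + t * Complex.I) t := by fun_prop
      exact ContinuousAt.comp (f := fun t : ℝ => (σ0 : ℂ) + t * Complex.I) h2 h3
    refine Integrable.mono' (integrable_inv_one_add_sq.const_mul (|C'| / σ0))
      hc.aestronglyMeasurable (Filter.Eventually.of_forall fun t => ?_)
    have h2 := hC' ((σ0 : ℂ) + t * Complex.I) (by rw [hre]; exact h0) (by rw [hre]; exact h1)
    have h3 : σ0 ≤ ‖(σ0 : ℂ) + t * Complex.I‖ := by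
      have h := Complex.abs_re_le_norm ((σ0 : ℂ) + t * Complex.I)
      rw [hre] at h
      exact (le_abs_self _).trans h
    have h4 : |t| ≤ ‖(σ0 : ℂ) + t * Complex.I‖ := by
      have h := Complex.abs_im_le_norm ((σ0 : ℂ) + t * Complex.I)
      rw [him] at h
      exact h
    have h5 : 1 + t ^ 2 ≤ (1 + ‖(σ0 : ℂ) + t * Complex.I‖) ^ 2 := by
      have h6 : (1 + |t|) ^ 2 ≤ (1 + ‖(σ0 : ℂ) + t * Complex.I‖) ^ 2 :=
        pow_le_pow_left₀ (by positivity) (by linarith) 2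
      nlinarith [abs_nonneg t, sq_abs t]
    refine h2.trans ?_
    calc C' / (‖(σ0 : ℂ) + t * Complex.I‖ * (1 + ‖(σ0 : ℂ) + t * Complex.I‖) ^ 2)
        ≤ |C'| / (‖(σ0 : ℂ) + t * Complex.I‖ * (1 + ‖(σ0 : ℂ) + t * Complex.I‖) ^ 2) :=
          div_le_div_of_nonneg_right (le_abs_self _) (by positivity)
      _ ≤ |C'| / (σ0 * (1 + t ^ 2)) :=
          div_le_div_of_nonneg_left (abs_nonneg _) (by positivity)
            (mul_le_mul h3 h5 (by positivity) (norm_nonneg _))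
      _ = |C'| / σ0 * (1 + t ^ 2)⁻¹ := by
          rw [div_mul_eq_div_div, div_eq_mul_inv (|C'| / σ0)]
  have hinv := mellinInv_mellin_eq σ0 (fun ξ : ℝ => ((Ft F ((ε : ℝ) * ξ) : ℝ) : ℂ)) hξ hconv
    hvert hcont.continuousAt
  rw [← hinv]
  unfold mellinInv
  rw [Complex.real_smul]
  push_cast
  congr 1
  refine integral_congr_ae (Filter.Eventually.of_forall fun t => ?_)
  show (ξ : ℂ) ^ (-((σ0 : ℂ) + t * Complex.I)) •
    mellin (fun ξ : ℝ => ((Ft F ((ε : ℝ) * ξ) : ℝ) : ℂ)) ((σ0 : ℂ) + t * Complex.I) = _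
  rw [smul_eq_mul, mul_comm]
  rfl

end Pool.Agent.H413R3.RG
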