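import Pool.Agent.H74R2.WT.Stmts

set_option autoImplicit false

namespace H74R2.WT

open Complex

theorem k_tr_apply (v z : ℂ) : tr v z = z + v := rfl

theorem k_tr_mul (v w : ℂ) : tr v * tr w = tr (v + w) := by
  ext z
  rw [IsometryEquiv.mul_apply, k_tr_apply, k_tr_apply, k_tr_apply]
  ring

theorem k_tr_zero : tr 0 = 1 := by
  ext z
  rw [k_tr_apply, add_zero]
  rfl

theorem k_tr_inv (v : ℂ) : (tr v)⁻¹ = tr (-v) := by
  apply inv_eq_of_mul_eq_one_right
  rw [k_tr_mul, add_neg_cancel, k_tr_zero]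

theorem k_tr_eq_one {v : ℂ} (h : tr v = 1) : v = 0 := by
  have h1 : tr v 0 = (1 : ℂ ≃ᵢ ℂ) 0 := by rw [h]
  rw [k_tr_apply, zero_add] at h1
  exact h1

theorem k_conj_mul {u : ℂ} (hu : ‖u‖ = 1) : (starRingEnd ℂ) u * u = 1 := by
  rw [mul_comm, Complex.mul_conj, Complex.normSq_eq_norm_sq, hu]
  norm_num

/-- some element moves the point -/
theorem k_move {G : Subgroup (ℂ ≃ᵢ ℂ)} (hG : Coco G) (c : ℂ) : ∃ g ∈ G, g c ≠ c := by
  by_contra hcon
  push Not at hcon
  obtain ⟨B, hB, hcov⟩ := hG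
  obtain ⟨R, hR⟩ := hB.exists_norm_le
  obtain ⟨g, hg, w, hw, hgw⟩ := hcov (c + ((|R| + ‖c‖ + 1 : ℝ) : ℂ))
  have h1 : dist (g w) (g c) = dist w c := g.isometry.dist_eq w c
  rw [hcon g hg, hgw, dist_eq_norm, dist_eq_norm, add_sub_cancel_left, Complex.norm_real,
    Real.norm_eq_abs, abs_of_pos (by positivity)] at h1
  have h2 : ‖w - c‖ ≤ ‖w‖ + ‖c‖ := norm_sub_le _ _
  have h3 := hR w hw
  have h4 := le_abs_self R
  linarith

/-- conjugating a rotation by a motion moving its centre produces a translation -/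
theorem k_main (hK0 : T_K0) {G : Subgroup (ℂ ≃ᵢ ℂ)} (hG : Coco G) {r : ℂ ≃ᵢ ℂ} (hr : r ∈ G)
    {u b : ℂ} (hu : ‖u‖ = 1) (hu1 : u ≠ 1) (hrz : ∀ z, r z = u * z + b) :
    ∃ v : ℂ, v ≠ 0 ∧ tr v ∈ G := by
  have h1u : (1 - u) ≠ 0 := sub_ne_zero.mpr (Ne.symm hu1)
  obtain ⟨c, hc⟩ : ∃ c, b = (1 - u) * c := ⟨b / (1 - u), by field_simp⟩
  obtain ⟨g, hg, hgc⟩ := k_move hG c
  have hgc' : g c - c ≠ 0 := sub_ne_zero.mpr hgc
  obtain ⟨p, q, hp, hpq | hpq⟩ := hK0 g
  · refine ⟨(1 - u) * (g c - c), mul_ne_zero h1u hgc', ?_⟩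
    have h2 : tr ((1 - u) * (g c - c)) = g * r * g⁻¹ * r⁻¹ := by
      rw [eq_mul_inv_iff_mul_eq, eq_mul_inv_iff_mul_eq]
      ext z
      rw [IsometryEquiv.mul_apply, IsometryEquiv.mul_apply, IsometryEquiv.mul_apply, k_tr_apply,
        hpq, hrz, hpq, hrz, hpq, hc]
      ring
    rw [h2]
    exact G.mul_mem (G.mul_mem (G.mul_mem hg hr) (G.inv_mem hg)) (G.inv_mem hr)
  · have h3 : (1 - (starRingEnd ℂ) u) ≠ 0 := by
      intro h
      apply h1u
      have := congrArg (starRingEnd ℂ) h
      simpa using this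
    have h4 := k_conj_mul hu
    refine ⟨(1 - (starRingEnd ℂ) u) * (g c - c), mul_ne_zero h3 hgc', ?_⟩
    have h2 : g * r * g⁻¹ * r = tr ((1 - (starRingEnd ℂ) u) * (g c - c)) := by
      ext z
      have hy : g (g⁻¹ (r z)) = r z := by
        rw [← IsometryEquiv.mul_apply, mul_inv_cancel]
        rfl
      rw [IsometryEquiv.mul_apply, IsometryEquiv.mul_apply, IsometryEquiv.mul_apply, k_tr_apply]
      set y := g⁻¹ (r z) with hyd
      rw [hpq, hrz] at hy
      rw [hpq, hrz, hpq c, hc]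
      rw [hc] at hy
      simp only [map_add, map_mul, map_sub, map_one]
      linear_combination (starRingEnd ℂ) u * hy + (z - c) * h4
    rw [← h2]
    exact G.mul_mem (G.mul_mem (G.mul_mem hg hr) (G.inv_mem hg)) hr

theorem k_rot {G : Subgroup (ℂ ≃ᵢ ℂ)} {r : ℂ ≃ᵢ ℂ} (hr : r ∈ G) {u b : ℂ}
    (hrz : ∀ z, r z = u * z + b) {v : ℂ} (hv : tr v ∈ G) : tr (u * v) ∈ G := by
  have h2 : tr (u * v) = r * tr v * r⁻¹ := by
    rw [eq_mul_inv_iff_mul_eq]
    ext z
    rw [IsometryEquiv.mul_apply, IsometryEquiv.mul_apply, k_tr_apply, k_tr_apply, hrz, hrz]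
    ring
  rw [h2]
  exact G.mul_mem (G.mul_mem hr hv) (G.inv_mem hr)

theorem k_neg {G : Subgroup (ℂ ≃ᵢ ℂ)} {v : ℂ} (hv : tr v ∈ G) : tr (-v) ∈ G := by
  rw [← k_tr_inv]
  exact G.inv_mem hv

theorem t_K4 : T_K4 := by
  intro hK0 G hG hr
  obtain ⟨r, hrG, hord⟩ := hr
  have hr4 : r ^ 4 = 1 := by rw [← hord]; exact pow_orderOf_eq_one r
  have hr2 : r ^ 2 ≠ 1 := by
    intro h
    have := orderOf_dvd_of_pow_eq_one h
    rw [hord] at this
    norm_num at this
  have hr4' : ∀ z, r (r (r (r z))) = z := by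
    intro z
    have h : (r ^ 4) z = z := by rw [hr4]; rfl
    exact h
  have hr2' : ¬ ∀ z, r (r z) = z := by
    intro h
    apply hr2
    ext z
    rw [pow_two, IsometryEquiv.mul_apply, h z]
    rfl
  obtain ⟨u, b, hu, hz | hz⟩ := hK0 r
  · have e0 := hr4' 0
    have e1 := hr4' 1
    simp only [hz] at e0 e1
    have hu4 : u ^ 4 = 1 := by linear_combination e1 - e0
    have hu1 : u ≠ 1 := by
      intro h
      rw [h] at e0
      have hb : b = 0 := by
        have : 4 * b = 0 := by linear_combination e0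
        simpa using this
      apply hr2'
      intro z
      rw [hz, hz, h, hb]
      ring
    have hum : u ≠ -1 := by
      intro h
      apply hr2'
      intro z
      rw [hz, hz, h]
      ring
    obtain ⟨v, hv0, hv⟩ := k_main hK0 hG hrG hu hu1 hz
    refine ⟨v, hv0, hv, ?_⟩
    have h5 : (u - 1) * ((u + 1) * ((u - I) * (u + I))) = 0 := by
      have hI : I * I = -1 := Complex.I_mul_I
      linear_combination hu4 - (u ^ 2 - 1) * hI
    rcases mul_eq_zero.mp h5 with h | h
    · exact absurd (sub_eq_zero.mp h) hu1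
    rcases mul_eq_zero.mp h with h | h
    · exact absurd (eq_neg_of_add_eq_zero_left h) hum
    rcases mul_eq_zero.mp h with h | h
    · have h6 : u = I := sub_eq_zero.mp h
      rw [← h6]
      exact k_rot hrG hz hv
    · have h6 : I = -u := by linear_combination h
      rw [h6, neg_mul]
      exact k_neg (k_rot hrG hz hv)
  · exfalso
    have h4 := k_conj_mul hu
    have h5 : ∀ z, r (r z) = z + (u * (starRingEnd ℂ) b + b) := by
      intro z
      rw [hz, hz]
      simp only [map_add, map_mul, Complex.conj_conj]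
      linear_combination z * h4
    have h6 := hr4' 0
    rw [h5 0, h5] at h6
    have h7 : u * (starRingEnd ℂ) b + b = 0 := by
      have : 2 * (u * (starRingEnd ℂ) b + b) = 0 := by linear_combination h6
      simpa using this
    apply hr2'
    intro z
    rw [h5, h7, add_zero]

theorem k_e3 : e3 * e3 = e3 - 1 := by
  have h3 : Real.sqrt 3 * Real.sqrt 3 = 3 := Real.mul_self_sqrt (by norm_num)
  apply Complex.ext
  · simp only [e3, Complex.mul_re, Complex.sub_re, Complex.one_re]
    linear_combination (-1 / 4 : ℝ) * h3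
  · simp only [e3, Complex.mul_im, Complex.sub_im, Complex.one_im]
    ring

theorem t_K3 : T_K3 := by
  intro hK0 G hG hr
  obtain ⟨r, hrG, hord⟩ := hr
  have hr3 : r ^ 3 = 1 := by rw [← hord]; exact pow_orderOf_eq_one r
  have hr1 : ¬ ∀ z, r z = z := by
    intro h
    have h1 : r = 1 := by
      ext z
      rw [h z]
      rfl
    rw [h1, orderOf_one] at hord
    norm_num at hord
  have hr3' : ∀ z, r (r (r z)) = z := by
    intro z
    have h : (r ^ 3) z = z := by rw [hr3]; rfl
    exact h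
  obtain ⟨u, b, hu, hz | hz⟩ := hK0 r
  · have e0 := hr3' 0
    have e1 := hr3' 1
    simp only [hz] at e0 e1
    have hu3 : u ^ 3 = 1 := by linear_combination e1 - e0
    have hu1 : u ≠ 1 := by
      intro h
      rw [h] at e0
      have hb : b = 0 := by
        have : 3 * b = 0 := by linear_combination e0
        simpa using this
      apply hr1
      intro z
      rw [hz, h, hb]
      ring
    obtain ⟨v, hv0, hv⟩ := k_main hK0 hG hrG hu hu1 hz
    refine ⟨v, hv0, hv, ?_⟩
    have h5 : (u - 1) * ((u - (e3 - 1)) * (u + e3)) = 0 := by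
      linear_combination hu3 - (u - 1) * k_e3
    rcases mul_eq_zero.mp h5 with h | h
    · exact absurd (sub_eq_zero.mp h) hu1
    rcases mul_eq_zero.mp h with h | h
    · have h6 : e3 * v = v + u * v := by linear_combination (-v) * h
      rw [h6, ← k_tr_mul]
      exact G.mul_mem hv (k_rot hrG hz hv)
    · have h6 : e3 = -u := by linear_combination h
      rw [h6, neg_mul]
      exact k_neg (k_rot hrG hz hv)
  · exfalso
    have h4 := k_conj_mul hu
    have h5 : ∀ z, r (r z) = z + (u * (starRingEnd ℂ) b + b) := by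
      intro z
      rw [hz, hz]
      simp only [map_add, map_mul, Complex.conj_conj]
      linear_combination z * h4
    have e0 := hr3' 0
    have e1 := hr3' 1
    have e2 := hr3' I
    rw [h5, hz] at e0 e1 e2
    simp only [map_zero, map_one, Complex.conj_I] at e0 e1 e2
    have f1 : u = 1 := by linear_combination e1 - e0
    have f2 : u * I = -I := by linear_combination e0 - e2
    rw [f1, one_mul] at f2
    have f3 := congrArg Complex.im f2
    simp at f3
    norm_num at f3

end H74R2.WT
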